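import Pool.Agent.H17Arc.Geo

/-!
# MP_e9ccd1_an: closed curves with a curved planar arc are not tight-frame spectral

If a piecewise `C²` closed curve in `ℝ^d` has a subarc which lies in an affine plane and is not a
polygonal path, then its arc-length measure is not tight-frame spectral, hence not spectral.
For `d = 2` the whole curve may be taken as the subarc: every piecewise `C²` closed plane curve
other than a polygon is covered.
-/

set_option autoImplicit false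

open MeasureTheory Set H17Arc
open scoped ENNReal

namespace Pool.Agent.Results.MP_e9ccd1_an.PlanarCurvedArc

/-- A piecewise `C²` closed curve `γ : [0, L] → ℝ^d` parametrised by arc length: continuous,
closed, `C²` with unit speed on each closed piece between consecutive points of a finite set, and
with only finitely many self-intersections. -/
structure IsClosedCurve {d : ℕ} (L : ℝ) (γ : ℝ → EuclideanSpace ℝ (Fin d)) : Prop where
  pos : 0 < L
  cont : ContinuousOn γ (Icc 0 L)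
  closed : γ 0 = γ L
  pieces : ∃ F : Finset ℝ, ∀ x y, 0 ≤ x → x < y → y ≤ L → (∀ t ∈ F, t ∉ Ioo x y) →
    ContDiffOn ℝ 2 γ (Icc x y) ∧ ∀ t ∈ Ioo x y, ‖deriv γ t‖ = 1
  selfint : {t | t ∈ Ico 0 L ∧ ∃ s ∈ Ico 0 L, s ≠ t ∧ γ t = γ s}.Finite

/-- `γ` is a polygonal path on `[a, b]`: affine on each closed piece between consecutive points
of a finite set. -/
def IsPolygonalOn {d : ℕ} (γ : ℝ → EuclideanSpace ℝ (Fin d)) (a b : ℝ) : Prop :=
  ∃ F : Finset ℝ, ∀ x y, a ≤ x → x < y → y ≤ b → (∀ t ∈ F, t ∉ Ioo x y) →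
    ∃ p v : EuclideanSpace ℝ (Fin d), ∀ t ∈ Icc x y, γ t = p + t • v

/-- The normalised arc-length measure: `∫ f dμ = (1 / L) ∫_0^L f (γ t) dt`. -/
noncomputable def arcMeasure {d : ℕ} (L : ℝ) (γ : ℝ → EuclideanSpace ℝ (Fin d)) :
    Measure (EuclideanSpace ℝ (Fin d)) :=
  ENNReal.ofReal (1 / L) • Measure.map γ (volume.restrict (Icc 0 L))

/-- `μ` is tight-frame spectral: for some countable `Λ` and `A > 0`,
`∑_{l ∈ Λ} |∫ f(x) exp(-2 π i l·x) dμ(x)|² = A ∫ |f|² dμ` for all `f ∈ L²(μ)`. -/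
def TightFrameSpectral {d : ℕ} (μ : Measure (EuclideanSpace ℝ (Fin d))) : Prop :=
  ∃ (Λ : Set (EuclideanSpace ℝ (Fin d))) (A : ℝ), Λ.Countable ∧ 0 < A ∧
    ∀ f : EuclideanSpace ℝ (Fin d) → ℂ, MemLp f 2 μ →
      HasSum (fun l : Λ => ‖∫ x, f x * Complex.exp (-(2 * Real.pi *
        (inner ℝ (l : EuclideanSpace ℝ (Fin d)) x : ℝ) : ℝ) * Complex.I) ∂μ‖ ^ 2)
        (A * ∫ x, ‖f x‖ ^ 2 ∂μ)

/-- `μ` is spectral: for some countable `Λ` the exponentials `exp(2 π i l·x)`, `l ∈ Λ`, form an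
orthonormal (Hilbert) basis of `L²(μ)`. -/
def Spectral {d : ℕ} (μ : Measure (EuclideanSpace ℝ (Fin d))) : Prop :=
  ∃ Λ : Set (EuclideanSpace ℝ (Fin d)), Λ.Countable ∧ ∃ b : HilbertBasis Λ ℂ (Lp ℂ 2 μ),
    ∀ l : Λ, (b l : EuclideanSpace ℝ (Fin d) → ℂ) =ᵐ[μ] fun x =>
      Complex.exp ((2 * Real.pi * (inner ℝ (l : EuclideanSpace ℝ (Fin d)) x : ℝ) : ℝ) * Complex.I)

/-- Parseval: spectral measures are tight-frame spectral. -/
theorem spectral_tight {d : ℕ} {μ : Measure (EuclideanSpace ℝ (Fin d))} (h : Spectral μ) :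
    TightFrameSpectral μ := by
  obtain ⟨Λ, hΛ, b, hb⟩ := h
  refine ⟨Λ, 1, hΛ, one_pos, ?_⟩
  intro f hf
  set F : Lp ℂ 2 μ := hf.toLp f with hF
  have hFf : (F : EuclideanSpace ℝ (Fin d) → ℂ) =ᵐ[μ] f := hf.coeFn_toLp
  have h1 := b.hasSum_inner_mul_inner F F
  have h2 : ∀ l : Λ, inner ℂ (b l) F = ∫ x, f x * Complex.exp (-(2 * Real.pi *
        (inner ℝ (l : EuclideanSpace ℝ (Fin d)) x : ℝ) : ℝ) * Complex.I) ∂μ := by
    intro l
    rw [L2.inner_def]
    apply integral_congr_ae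
    filter_upwards [hb l, hFf] with x hx1 hx2
    rw [hx1, hx2, RCLike.inner_apply]
    congr 1
    rw [← Complex.exp_conj]
    congr 1
    rw [map_mul, Complex.conj_ofReal, Complex.conj_I]
    ring
  have h3 : ∀ l : Λ, inner ℂ F (b l) * inner ℂ (b l) F =
      ((‖∫ x, f x * Complex.exp (-(2 * Real.pi *
        (inner ℝ (l : EuclideanSpace ℝ (Fin d)) x : ℝ) : ℝ) * Complex.I) ∂μ‖ ^ 2 : ℝ) : ℂ) := by
    intro l
    rw [← h2 l, ← inner_conj_symm F (b l), mul_comm, Complex.mul_conj,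
      Complex.normSq_eq_norm_sq]
  have h4 : inner ℂ F F = ((∫ x, ‖f x‖ ^ 2 ∂μ : ℝ) : ℂ) := by
    rw [L2.inner_def, ← integral_complex_ofReal]
    apply integral_congr_ae
    filter_upwards [hFf] with x hx
    rw [hx, RCLike.inner_apply, Complex.mul_conj, Complex.normSq_eq_norm_sq]
  simp_rw [h3] at h1
  rw [h4] at h1
  rw [one_mul]
  exact_mod_cast h1

theorem result {d : ℕ} {L : ℝ} {γ : ℝ → EuclideanSpace ℝ (Fin d)} (hγ : IsClosedCurve L γ)
    {a b : ℝ} (ha : 0 ≤ a) (hb : b ≤ L)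
    (V : AffineSubspace ℝ (EuclideanSpace ℝ (Fin d)))
    (hV : Module.finrank ℝ V.direction = 2) (hmem : ∀ t ∈ Icc a b, γ t ∈ V)
    (hnp : ¬ IsPolygonalOn γ a b) :
    ¬ TightFrameSpectral (arcMeasure L γ) ∧ ¬ Spectral (arcMeasure L γ) := by
  suffices h : ¬ TightFrameSpectral (arcMeasure L γ) from
    ⟨h, fun hs => h (spectral_tight hs)⟩
  rintro ⟨Λ, A, hΛ, hA, hfr⟩
  obtain ⟨F, hF⟩ := hγ.pieces
  -- a piece of the planar part on which the curve is not affine
  obtain ⟨x, y, hax, hxy, hyb, hxyF, hna⟩ : ∃ x y, a ≤ x ∧ x < y ∧ y ≤ b ∧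
      (∀ t ∈ F, t ∉ Ioo x y) ∧
      ¬ ∃ p v : EuclideanSpace ℝ (Fin d), ∀ t ∈ Icc x y, γ t = p + t • v := by
    by_contra hcon
    push Not at hcon
    exact hnp ⟨F, fun x y hx hxy hy hxyF => hcon x y hx hxy hy hxyF⟩
  obtain ⟨hC, hunit⟩ := hF x y (ha.trans hax) hxy (hyb.trans hb) hxyF
  obtain ⟨s, hs, hs2⟩ := exists_deriv2_ne hxy hC hna
  obtain ⟨hd1, hd2, hd3⟩ := c2_derivs hC
  -- a small interval avoiding the self-intersections
  set SI : Set ℝ := {t | t ∈ Ico 0 L ∧ ∃ s ∈ Ico 0 L, s ≠ t ∧ γ t = γ s} with hSI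
  have hSIfin : SI.Finite := hγ.selfint
  set U : Set ℝ := {t | t ∈ Ioo x y ∧ deriv (deriv γ) t ≠ 0} with hU
  have hUo : IsOpen U := by
    have := hd3.isOpen_inter_preimage isOpen_Ioo (isOpen_compl_singleton (x := (0 : EuclideanSpace ℝ (Fin d))))
    exact this
  have hUinf : U.Infinite := by
    apply infinite_of_mem_nhds s
    exact hUo.mem_nhds ⟨hs, hs2⟩
  obtain ⟨s', hs'U, hs'S⟩ : ∃ s' ∈ U, s' ∉ SI := by
    by_contra hcon
    push Not at hcon
    exact hUinf (hSIfin.subset hcon)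
  have hopen : IsOpen (U \ SI) := hUo.sdiff hSIfin.isClosed
  obtain ⟨r, hr, hball⟩ := Metric.isOpen_iff.mp hopen s' ⟨hs'U, hs'S⟩
  set x' := s' - r / 2 with hx'
  set y' := s' + r / 2 with hy'
  have hx'y' : x' < y' := by rw [hx', hy']; linarith
  have hsub : ∀ t ∈ Icc x' y', t ∈ U ∧ t ∉ SI := by
    intro t ht
    apply hball
    rw [Metric.mem_ball, Real.dist_eq, abs_lt]
    constructor <;> linarith [ht.1, ht.2]
  have hIoo : ∀ t ∈ Icc x' y', t ∈ Ioo x y := fun t ht => (hsub t ht).1.1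
  have h0x' : 0 < x' := by
    have := (hIoo x' ⟨le_refl _, hx'y'.le⟩).1
    linarith
  have hy'L : y' < L := by
    have := (hIoo y' ⟨hx'y'.le, le_refl _⟩).2
    linarith
  have hinj : ∀ t ∈ Icc x' y', ∀ q ∈ Icc 0 L, γ q = γ t → q = t := by
    intro t ht q hq hqt
    by_contra hne
    have htS := (hsub t ht).2
    have htm : t ∈ Ico 0 L := ⟨by linarith [ht.1], by linarith [ht.2]⟩
    apply htS
    rcases hq.2.lt_or_eq with hqL | hqL
    · exact ⟨htm, q, ⟨hq.1, hqL⟩, hne, hqt.symm⟩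
    · refine ⟨htm, 0, ⟨le_refl _, hγ.pos⟩, by linarith [ht.1], ?_⟩
      rw [hγ.closed, ← hqL, hqt]
  -- orthonormal coordinates of the plane
  set ob : OrthonormalBasis (Fin 2) ℝ V.direction :=
    (stdOrthonormalBasis ℝ V.direction).reindex (finCongr hV) with hob
  set e1 : EuclideanSpace ℝ (Fin d) := (ob 0 : EuclideanSpace ℝ (Fin d)) with he1
  set e2 : EuclideanSpace ℝ (Fin d) := (ob 1 : EuclideanSpace ℝ (Fin d)) with he2
  have hn1 : ‖e1‖ = 1 := by
    have := ob.orthonormal.1 0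
    exact this
  have hn2 : ‖e2‖ = 1 := by
    have := ob.orthonormal.1 1
    exact this
  have h12 : inner ℝ e1 e2 = 0 := by
    have := ob.orthonormal.2 (show (0 : Fin 2) ≠ 1 by decide)
    exact this
  set p0 := γ s' with hp0
  set z0 : ℝ → ℂ := fun t => Qm e1 e2 (γ t - p0) with hz0
  have hab' : ∀ t ∈ Ioo x y, t ∈ Icc a b := fun t ht =>
    ⟨by linarith [ht.1], by linarith [ht.2]⟩
  have hcoord : ∀ t ∈ Ioo x y, γ t = p0 + Jm e1 e2 (z0 t) := by
    intro t ht
    have hw : γ t - p0 ∈ V.direction :=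
      AffineSubspace.vsub_mem_direction (hmem t (hab' t ht)) (hmem s' (hab' s' hs'U.1))
    have h1 := ob.sum_repr ⟨γ t - p0, hw⟩
    rw [Fin.sum_univ_two] at h1
    have h2 := congrArg (fun w : V.direction => (w : EuclideanSpace ℝ (Fin d))) h1
    simp only [Submodule.coe_add, Submodule.coe_smul, ob.repr_apply_apply,
      Submodule.coe_inner] at h2
    rw [Jm_apply, hz0]
    simp only [Qm_apply, Complex.add_re, Complex.add_im, Complex.ofReal_re, Complex.ofReal_im,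
      Complex.mul_re, Complex.mul_im, Complex.I_re, Complex.I_im, mul_zero, mul_one, sub_zero,
      add_zero, zero_add]
    rw [h2]
    abel
  have hd1' : ∀ t ∈ Ioo x y, HasDerivAt z0 (Qm e1 e2 (deriv γ t)) t := by
    intro t ht
    exact ((Qm e1 e2).hasFDerivAt.comp_hasDerivAt t ((hd1 t ht).sub_const p0))
  have hd2' : ∀ t ∈ Ioo x y, HasDerivAt (fun t => Qm e1 e2 (deriv γ t))
      (Qm e1 e2 (deriv (deriv γ) t)) t := by
    intro t ht
    exact ((Qm e1 e2).hasFDerivAt.comp_hasDerivAt t (hd2 t ht))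
  have hγ' : ∀ t ∈ Ioo x y, deriv γ t = Jm e1 e2 (Qm e1 e2 (deriv γ t)) := by
    intro t ht
    have h1 : HasDerivAt (fun t => p0 + Jm e1 e2 (z0 t)) (Jm e1 e2 (Qm e1 e2 (deriv γ t))) t :=
      ((Jm e1 e2).hasFDerivAt.comp_hasDerivAt t (hd1' t ht)).const_add p0
    have h2 : γ =ᶠ[nhds t] fun t => p0 + Jm e1 e2 (z0 t) := by
      filter_upwards [Ioo_mem_nhds ht.1 ht.2] with r hr
      exact hcoord r hr
    exact (h1.congr_of_eventuallyEq h2).deriv
  have hγ'' : ∀ t ∈ Ioo x y, deriv (deriv γ) t = Jm e1 e2 (Qm e1 e2 (deriv (deriv γ) t)) := by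
    intro t ht
    have h1 : HasDerivAt (fun t => Jm e1 e2 (Qm e1 e2 (deriv γ t)))
        (Jm e1 e2 (Qm e1 e2 (deriv (deriv γ) t))) t :=
      (Jm e1 e2).hasFDerivAt.comp_hasDerivAt t (hd2' t ht)
    have h2 : deriv γ =ᶠ[nhds t] fun t => Jm e1 e2 (Qm e1 e2 (deriv γ t)) := by
      filter_upwards [Ioo_mem_nhds ht.1 ht.2] with r hr
      exact hγ' r hr
    exact (h1.congr_of_eventuallyEq h2).deriv
  have hIoo' : ∀ t ∈ Ioo x' y', t ∈ Ioo x y := fun t ht => hIoo t ⟨ht.1.le, ht.2.le⟩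
  have hs'm : s' ∈ Ioo x' y' := ⟨by rw [hx']; linarith, by rw [hy']; linarith⟩
  have hH : Hyp z0 (fun l : Λ => Qm e1 e2 (l : EuclideanSpace ℝ (Fin d))) (A * L) x' y' := by
    intro p q u hp hpq hq hu
    have h1 := bridge hγ.pos hγ.cont hfr (x := p) (y := q) (by linarith) hpq (by linarith)
      (fun t ht => hinj t ⟨by linarith [ht.1], by linarith [ht.2]⟩) u hu
    rw [← h1]
    congr 1
    ext l
    congr 2
    have h2 : ∫ t in p..q, (Real.exp (-(u * (t - p))) : ℂ) *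
        Complex.exp (-(2 * Real.pi * (inner ℝ (l : EuclideanSpace ℝ (Fin d)) (γ t) : ℝ) : ℝ) *
          Complex.I) =
        Complex.exp (-(2 * Real.pi * (inner ℝ (l : EuclideanSpace ℝ (Fin d)) p0 : ℝ) : ℝ) *
          Complex.I) *
        W (phi z0 (Qm e1 e2 (l : EuclideanSpace ℝ (Fin d)))) u p q := by
      unfold W
      rw [← intervalIntegral.integral_const_mul]
      apply intervalIntegral.integral_congr
      intro t ht
      rw [uIcc_of_le hpq] at ht
      have ht' : t ∈ Ioo x y := hIoo t ⟨by linarith [ht.1], by linarith [ht.2]⟩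
      simp only [ker, phi]
      rw [hcoord t ht', inner_add_right, inner_Jm, Complex.ofReal_exp, ← Complex.exp_add,
        ← Complex.exp_add]
      congr 1
      push_cast
      ring
    rw [h2, norm_mul]
    have h3 : ‖Complex.exp (-(2 * Real.pi * (inner ℝ (l : EuclideanSpace ℝ (Fin d)) p0 : ℝ) : ℝ) *
          Complex.I)‖ = 1 := by
      rw [← Complex.ofReal_neg, Complex.norm_exp_ofReal_mul_I]
    rw [h3, one_mul]
  have : Countable Λ := hΛ.to_subtype
  refine local_false (z0 := z0) (z1 := fun t => Qm e1 e2 (deriv γ t))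
    (z2 := fun t => Qm e1 e2 (deriv (deriv γ) t)) (fun t ht => hd1' t (hIoo' t ht))
    (fun t ht => hd2' t (hIoo' t ht)) ?_ ?_ hs'm ?_ (mul_pos hA hγ.pos) hH
  · exact (Qm e1 e2).continuous.comp_continuousOn (hd3.mono hIoo')
  · intro t ht
    rw [← norm_Jm hn1 hn2 h12, ← hγ' t (hIoo' t ht)]
    exact hunit t (hIoo' t ht)
  · intro h0
    apply hs'U.2
    rw [hγ'' s' hs'U.1]
    rw [h0, map_zero]

end Pool.Agent.Results.MP_e9ccd1_an.PlanarCurvedArc
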